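import Pool.Agent.Helper70.BU.Goals

/-!
# Packet TW-DIFF (MP_c7dfba_nt, part BU)
-/

set_option autoImplicit false

namespace Pool.Agent.Helper16.BU

open MvPolynomial Pool.Agent.Helper70.BU

set_option linter.unusedSectionVars false

variable {κ : Type} [Fintype κ] [DecidableEq κ]

/-- the product of the powers of the `1 + X k` -/
noncomputable def U (a : κ → ℕ) : MvPolynomial κ ℤ := ∏ k, (X k + 1) ^ a k

theorem U_add (a b : κ → ℕ) : U (fun k => a k + b k) = U a * U b := by
  unfold U
  rw [← Finset.prod_mul_distrib]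
  exact Finset.prod_congr rfl fun k _ => pow_add _ _ _

theorem coeff_U (a : κ → ℕ) (d : κ →₀ ℕ) : coeff d (U a) = ∏ k, ((a k).choose (d k) : ℤ) := by
  have h1 : U a = ∑ p ∈ Fintype.piFinset (fun k => Finset.range (a k + 1)),
      monomial (Finsupp.equivFunOnFinite.symm p) (∏ k, ((a k).choose (p k) : ℤ)) := by
    unfold U
    have h2 : ∀ k, (X k + 1 : MvPolynomial κ ℤ) ^ a k =
        ∑ i ∈ Finset.range (a k + 1), X k ^ i * C ((a k).choose i : ℤ) := by
      intro k
      rw [add_pow]
      exact Finset.sum_congr rfl fun i _ => by simp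
    rw [Finset.prod_congr rfl fun k _ => h2 k, Finset.prod_univ_sum]
    refine Finset.sum_congr rfl fun p _ => ?_
    rw [Finset.prod_mul_distrib, ← map_prod, mul_comm, MvPolynomial.monomial_eq]
    congr 1
    rw [Finsupp.prod_fintype _ _ (fun i => pow_zero _)]
    rfl
  rw [h1, MvPolynomial.coeff_sum]
  simp only [coeff_monomial]
  by_cases hd : ∀ k, d k ≤ a k
  · rw [Finset.sum_eq_single (⇑d)]
    · rw [if_pos (by ext k; rfl)]
    · intro p _ hp
      rw [if_neg]
      intro h
      apply hp
      rw [← h]; rfl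
    · intro h
      exfalso
      apply h
      rw [Fintype.mem_piFinset]
      intro k
      rw [Finset.mem_range]
      have := hd k
      omega
  · push Not at hd
    obtain ⟨k, hk⟩ := hd
    rw [Finset.prod_eq_zero (Finset.mem_univ k) (by rw [Nat.choose_eq_zero_of_lt hk]; rfl)]
    refine Finset.sum_eq_zero fun p hp => ?_
    rw [if_neg]
    intro h
    rw [Fintype.mem_piFinset] at hp
    have h3 := hp k
    rw [Finset.mem_range] at h3
    have : p k = d k := by rw [← h]; rfl
    omega

/-- the degree -/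
def dg (d : κ →₀ ℕ) : ℕ := ∑ k, d k

theorem dg_add (a b : κ →₀ ℕ) : dg (a + b) = dg a + dg b := by
  unfold dg
  rw [← Finset.sum_add_distrib]
  rfl

theorem dg_zero {d : κ →₀ ℕ} (h : dg d = 0) : d = 0 := by
  unfold dg at h
  rw [Finset.sum_eq_zero_iff] at h
  ext k
  exact h k (Finset.mem_univ k)

theorem dg_one {d : κ →₀ ℕ} (h : dg d = 1) : ∃ k, d = Finsupp.single k 1 := by
  have h1 : ∃ k, d k ≠ 0 := by
    by_contra hc
    push Not at hc
    have : dg d = 0 := Finset.sum_eq_zero fun k _ => hc k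
    omega
  obtain ⟨k, hk⟩ := h1
  refine ⟨k, ?_⟩
  have h2 : dg d = d k + ∑ j ∈ Finset.univ.erase k, d j := by
    unfold dg
    rw [Finset.add_sum_erase _ _ (Finset.mem_univ k)]
  have h3 : ∑ j ∈ Finset.univ.erase k, d j = 0 := by omega
  have h4 : d k = 1 := by omega
  rw [Finset.sum_eq_zero_iff] at h3
  ext j
  by_cases hj : j = k
  · rw [hj, h4, Finsupp.single_eq_same]
  · rw [Finsupp.single_eq_of_ne hj, h3 j (Finset.mem_erase.mpr ⟨hj, Finset.mem_univ j⟩)]

/-- `F` and `H` have no terms of degree less than `s` and the same terms of degree `s` -/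
def Ld (s : ℕ) (F H : MvPolynomial κ ℤ) : Prop :=
  ∀ d : κ →₀ ℕ, (dg d < s → coeff d F = 0 ∧ coeff d H = 0) ∧ (dg d = s → coeff d F = coeff d H)

theorem Ld.mul {s t : ℕ} {F H F' H' : MvPolynomial κ ℤ} (h : Ld s F H) (h' : Ld t F' H') :
    Ld (s + t) (F * F') (H * H') := by
  intro d
  rw [coeff_mul, coeff_mul]
  constructor
  · intro hd
    constructor
    · refine Finset.sum_eq_zero fun p hp => ?_
      rw [Finset.HasAntidiagonal.mem_antidiagonal] at hp
      have h1 := dg_add p.1 p.2
      rw [hp] at h1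
      rcases Nat.lt_or_ge (dg p.1) s with h2 | h2
      · rw [((h p.1).1 h2).1, zero_mul]
      · rw [((h' p.2).1 (by omega)).1, mul_zero]
    · refine Finset.sum_eq_zero fun p hp => ?_
      rw [Finset.HasAntidiagonal.mem_antidiagonal] at hp
      have h1 := dg_add p.1 p.2
      rw [hp] at h1
      rcases Nat.lt_or_ge (dg p.1) s with h2 | h2
      · rw [((h p.1).1 h2).2, zero_mul]
      · rw [((h' p.2).1 (by omega)).2, mul_zero]
  · intro hd
    refine Finset.sum_congr rfl fun p hp => ?_
    rw [Finset.HasAntidiagonal.mem_antidiagonal] at hp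
    have h1 := dg_add p.1 p.2
    rw [hp] at h1
    rcases Nat.lt_or_ge (dg p.1) s with h2 | h2
    · rw [((h p.1).1 h2).1, ((h p.1).1 h2).2, zero_mul, zero_mul]
    · rcases Nat.lt_or_ge (dg p.2) t with h3 | h3
      · rw [((h' p.2).1 h3).1, ((h' p.2).1 h3).2, mul_zero, mul_zero]
      · rw [(h p.1).2 (by omega), (h' p.2).2 (by omega)]

theorem Ld_U (a : κ → ℕ) : Ld 0 (U a) 1 := by
  intro d
  refine ⟨fun h => absurd h (Nat.not_lt_zero _), fun h => ?_⟩
  rw [dg_zero h, coeff_U]
  simp

theorem coeff_lin (χ : κ → ℤ) (d : κ →₀ ℕ) :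
    coeff d (∑ k, C (χ k) * X k : MvPolynomial κ ℤ) = ∑ k, if Finsupp.single k 1 = d then χ k else 0 := by
  rw [MvPolynomial.coeff_sum]
  refine Finset.sum_congr rfl fun k _ => ?_
  rw [coeff_C_mul, coeff_X]
  split_ifs <;> simp

theorem Ld_G (N : ℕ) (χ : κ → ℤ) (hχ : ∀ k, |χ k| ≤ N) :
    Ld 1 (U (fun _ => N) - U (fun k => (χ k + N).toNat)) (-(∑ k, C (χ k) * X k)) := by
  intro d
  rw [coeff_sub, coeff_neg, coeff_U, coeff_U, coeff_lin]
  constructor
  · intro h
    have h0 : d = 0 := dg_zero (by omega)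
    rw [h0]
    refine ⟨by simp, ?_⟩
    rw [neg_eq_zero]
    refine Finset.sum_eq_zero fun k _ => ?_
    rw [if_neg]
    intro h1
    have := DFunLike.congr_fun h1 k
    simp at this
  · intro h
    obtain ⟨j, rfl⟩ := dg_one h
    have e1 : ∀ a : κ → ℕ, ∏ k, ((a k).choose ((Finsupp.single j 1 : κ →₀ ℕ) k) : ℤ) = a j := by
      intro a
      rw [Finset.prod_eq_single j]
      · simp
      · intro k _ hk
        rw [Finsupp.single_eq_of_ne hk]
        simp
      · intro h1
        exact absurd (Finset.mem_univ j) h1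
    rw [e1, e1, Finset.sum_eq_single j]
    · rw [if_pos rfl]
      have := abs_le.mp (hχ j)
      have h2 : (((χ j + N).toNat : ℕ) : ℤ) = χ j + N := Int.toNat_of_nonneg (by linarith)
      rw [h2]
      ring
    · intro k _ hk
      rw [if_neg]
      intro h1
      exact hk (Finsupp.single_left_injective one_ne_zero h1)
    · intro h1
      exact absurd (Finset.mem_univ j) h1

theorem Ld_list (N : ℕ) : ∀ L : List (κ → ℤ), (∀ χ ∈ L, ∀ k, |χ k| ≤ (N : ℤ)) →
    Ld L.length (L.map (fun χ : κ → ℤ => U (fun _ => N) - U (fun k => (χ k + N).toNat))).prod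
      ((-1) ^ L.length * (L.map (fun χ : κ → ℤ => (∑ k, C (χ k) * X k : MvPolynomial κ ℤ))).prod) := by
  intro L
  induction L with
  | nil =>
    intro _ d
    refine ⟨fun h => absurd h (Nat.not_lt_zero _), fun _ => by simp⟩
  | cons χ L ih =>
    intro h
    have h1 := (Ld_G N χ (h χ (List.mem_cons_self ..))).mul (ih fun χ' hχ' => h χ' (List.mem_cons_of_mem _ hχ'))
    have e : -(∑ k, C (χ k) * X k) * ((-1) ^ L.length *
        (L.map (fun χ : κ → ℤ => (∑ k, C (χ k) * X k : MvPolynomial κ ℤ))).prod) =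
        (-1) ^ (χ :: L).length *
          ((χ :: L).map (fun χ : κ → ℤ => (∑ k, C (χ k) * X k : MvPolynomial κ ℤ))).prod := by
      rw [List.map_cons, List.prod_cons, List.length_cons, pow_succ]
      ring
    rw [e, add_comm] at h1
    rw [List.map_cons, List.prod_cons]
    exact h1

theorem dif_eq (e : κ → ℕ) (Y : (κ → ℤ) → ℤ)
    (hY : ∀ m : κ → ℤ, (∀ k, 0 ≤ m k) → Y m = ∏ k, ((((m k).toNat + e k).choose (e k) : ℕ) : ℤ)) (N : ℕ) :
    ∀ L : List (κ → ℤ), (∀ χ ∈ L, ∀ k, |χ k| ≤ (N : ℤ)) → ∀ n : κ → ℤ,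
      (∀ k, (N : ℤ) * L.length ≤ n k) → dif L Y n = coeff (Finsupp.equivFunOnFinite.symm e)
        (U (fun k => (n k - N * L.length).toNat + e k) *
          (L.map (fun χ : κ → ℤ => U (fun _ => N) - U (fun k => (χ k + N).toNat))).prod) := by
  intro L
  induction L with
  | nil =>
    intro _ n hn
    simp only [List.length_nil, Nat.cast_zero, mul_zero, sub_zero, List.map_nil, List.prod_nil, mul_one] at hn ⊢
    rw [coeff_U]
    show Y n = _
    rw [hY n hn]
    rfl
  | cons χ L ih =>
    intro h n hn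
    have hL := fun χ' hχ' => h χ' (List.mem_cons_of_mem χ hχ')
    have hχ := h χ (List.mem_cons_self ..)
    have hn' : ∀ k, (N : ℤ) * L.length + N ≤ n k := by
      intro k
      have := hn k
      rw [List.length_cons] at this
      push_cast at this
      linarith
    have h1 := ih hL n (fun k => by have := hn' k; have : (0 : ℤ) ≤ N := Int.natCast_nonneg N; linarith)
    have h2 := ih hL (n + χ) (fun k => by
      have := hn' k
      have := (abs_le.mp (hχ k)).1
      show _ ≤ n k + χ k
      linarith)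
    show dif L Y n - dif L Y (n + χ) = _
    rw [h1, h2, ← coeff_sub, ← sub_mul, List.map_cons, List.prod_cons, ← mul_assoc, mul_sub, ← U_add, ← U_add]
    have f1 : (fun k => (n k - N * L.length).toNat + e k) =
        fun k => ((n k - N * ((χ :: L).length : ℕ)).toNat + e k) + N := by
      funext k
      have := hn' k
      rw [List.length_cons]
      push_cast
      have e1 : n k - N * L.length = (n k - N * (L.length + 1)) + N := by ring
      rw [e1, Int.toNat_add (by linarith) (by positivity), Int.toNat_natCast]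
      ring
    have f2 : (fun k => ((n + χ) k - N * L.length).toNat + e k) =
        fun k => ((n k - N * ((χ :: L).length : ℕ)).toNat + e k) + (χ k + N).toNat := by
      funext k
      have := hn' k
      have h3 := (abs_le.mp (hχ k))
      rw [List.length_cons]
      push_cast
      have e1 : (n + χ) k - N * L.length = (n k - N * (L.length + 1)) + (χ k + N) := by
        rw [Pi.add_apply]; ring
      rw [e1, Int.toNat_add (by linarith) (by linarith)]
      ring
    rw [f1, f2]

/-- PACKET DIFF. -/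
theorem diff : DIFF := by
  intro κ _ _ e L hL
  obtain ⟨N, hN⟩ : ∃ N : ℕ, ∀ χ ∈ L, ∀ k, |χ k| ≤ (N : ℤ) := by
    clear hL
    induction L with
    | nil => exact ⟨0, fun χ h => absurd h (List.not_mem_nil)⟩
    | cons χ L ih =>
      obtain ⟨N, hN⟩ := ih
      refine ⟨N + ∑ k, (χ k).natAbs, fun χ' hχ' k => ?_⟩
      have hs : (χ k).natAbs ≤ ∑ k, (χ k).natAbs :=
        Finset.single_le_sum (f := fun k => (χ k).natAbs) (fun _ _ => Nat.zero_le _) (Finset.mem_univ k)
      rw [List.mem_cons] at hχ'
      rcases hχ' with h | h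
      · rw [h, Int.abs_eq_natAbs]
        exact_mod_cast hs.trans (Nat.le_add_left _ _)
      · refine (hN χ' h k).trans ?_
        exact_mod_cast Nat.le_add_right _ _
  refine ⟨N * L.length, fun Y hY n hn => ?_⟩
  rw [dif_eq e Y hY N L hN n hn]
  have h1 := (Ld_U (fun k => (n k - N * L.length).toNat + e k)).mul (Ld_list N L hN)
  rw [zero_add] at h1
  have h2 := (h1 (Finsupp.equivFunOnFinite.symm e)).2 (by rw [hL]; rfl)
  rw [h2, one_mul]
  have h3 : ((-1 : MvPolynomial κ ℤ)) ^ L.length = C ((-1) ^ L.length) := by simp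
  rw [h3, coeff_C_mul]

end Pool.Agent.Helper16.BU
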